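import Mathlib
import Pool.Agent.H751R3.Nls.G

set_option autoImplicit false

/-!
# MP_0c4061_mp : a localized solution of the defocusing cubic NLS with a positive potential

For every dimension `n ≥ 1` and every `δ > 0` there are a smooth positive potential `V` on `ℝⁿ`,
`|D^j V(x)| ≤ C_j / (1 + |x|)` for all `j`, and a nonzero localized solution
`ψ(t, x) = e^{-ik²t} φ(x)` of `i ∂_t ψ = -Δψ + Vψ + |ψ|²ψ`.
-/

namespace Pool.Agent.Results.MP_0c4061_mp.LongRangeStandingWave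

open Filter Topology MeasureTheory InnerProductSpace
open scoped ContDiff Laplacian

/-- `f` belongs to `H¹(ℝⁿ)` (for `C¹` functions). -/
def InH1 {n : ℕ} (f : EuclideanSpace ℝ (Fin n) → ℂ) : Prop :=
  ContDiff ℝ 1 f ∧ Integrable (fun x => ‖f x‖ ^ 2) ∧ Integrable (fun x => ‖fderiv ℝ f x‖ ^ 2)

/-- The norm of `H¹(ℝⁿ)`. -/
noncomputable def H1norm {n : ℕ} (f : EuclideanSpace ℝ (Fin n) → ℂ) : ℝ :=
  Real.sqrt (∫ x, (‖f x‖ ^ 2 + ‖fderiv ℝ f x‖ ^ 2))

/-- `ψ` is a (smooth) bounded solution of `i ∂_t ψ = -Δψ + Vψ + |ψ|²ψ`: it is global, in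
`C(ℝ; H¹)`, and bounded in `H¹`. -/
structure IsBoundedSolution {n : ℕ} (V : EuclideanSpace ℝ (Fin n) → ℝ)
    (ψ : ℝ → EuclideanSpace ℝ (Fin n) → ℂ) : Prop where
  smooth : ContDiff ℝ ∞ (fun p : ℝ × EuclideanSpace ℝ (Fin n) => ψ p.1 p.2)
  eqn : ∀ t x, Complex.I * deriv (fun s => ψ s x) t
    = -(Δ (ψ t)) x + (V x : ℂ) * ψ t x + ((‖ψ t x‖ ^ 2 : ℝ) : ℂ) * ψ t x
  memH1 : ∀ t, InH1 (ψ t)
  cont : ∀ t, Tendsto (fun s => H1norm (ψ s - ψ t)) (𝓝 t) (𝓝 0)
  bdd : ∃ C : ℝ, ∀ t, H1norm (ψ t) ≤ C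

/-- `ψ ≢ 0` and `‖⟨x⟩^δ ψ(t)‖_{L²}` is bounded for `t ≥ 0`, where `⟨x⟩ = (1 + |x|²)^{1/2}`. -/
def IsLocalized {n : ℕ} (δ : ℝ) (ψ : ℝ → EuclideanSpace ℝ (Fin n) → ℂ) : Prop :=
  (∃ t x, ψ t x ≠ 0) ∧ ∃ C : ℝ, ∀ t, 0 ≤ t →
    Integrable (fun x => ((1 + ‖x‖ ^ 2) ^ (1 / 2 : ℝ)) ^ (2 * δ) * ‖ψ t x‖ ^ 2) ∧
    ∫ x, ((1 + ‖x‖ ^ 2) ^ (1 / 2 : ℝ)) ^ (2 * δ) * ‖ψ t x‖ ^ 2 ≤ C

section proof

open H751R3.Nls

variable {n : ℕ} {k : ℝ} {g : ℕ}

noncomputable def L (c : ℂ) : ℝ →L[ℝ] ℂ := c • Complex.ofRealCLM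

lemma L_apply (c : ℂ) (y : ℝ) : L c y = c * y := by simp [L]

lemma norm_L_comp (c : ℂ) (f : En n →L[ℝ] ℝ) : ‖(L c).comp f‖ ≤ ‖c‖ * ‖f‖ := by
  refine ContinuousLinearMap.opNorm_le_bound _ (by positivity) fun x => ?_
  rw [ContinuousLinearMap.comp_apply, L_apply, norm_mul, Complex.norm_real, mul_assoc]
  exact mul_le_mul_of_nonneg_left (f.le_opNorm x) (norm_nonneg _)

/-- `c φ` as a complex function -/
noncomputable def sol (c : ℂ) (k : ℝ) (g : ℕ) (x : En n) : ℂ := c * (phi k g x : ℂ)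

lemma sol_eq (c : ℂ) : (sol c k g : En n → ℂ) = (L c) ∘ (phi k g) := by
  funext x; simp [sol, L_apply]

lemma sol_contDiff (c : ℂ) : ContDiff ℝ ∞ (sol c k g : En n → ℂ) := by
  rw [sol_eq]; exact (L c).contDiff.comp phi_contDiff

lemma norm_sol (c : ℂ) (x : En n) : ‖sol c k g x‖ = ‖c‖ * |phi k g x| := by
  simp [sol]

lemma norm_fderiv_sol (c : ℂ) (x : En n) :
    ‖fderiv ℝ (sol c k g : En n → ℂ) x‖ ≤ ‖c‖ * ‖fderiv ℝ (phi k g : En n → ℝ) x‖ := by
  have h : HasFDerivAt (sol c k g : En n → ℂ) ((L c).comp (fderiv ℝ (phi k g) x)) x := by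
    rw [sol_eq]
    exact (L c).hasFDerivAt.comp x (phi_contDiff.differentiable (by norm_num) x).hasFDerivAt
  rw [h.fderiv]
  exact norm_L_comp c _

lemma sol_sub (c d : ℂ) : (sol c k g - sol d k g : En n → ℂ) = sol (c - d) k g := by
  funext x; simp [sol, sub_mul]

lemma integrable_phi (hn : 1 ≤ n) (hk : 2 ≤ k) (N : ℕ) :
    Integrable (fun x : En n => (rho x ^ 2) ^ N * phi k (N + n + 1) x ^ 2) :=
  integrable_of_bound phi_contDiff.continuous zero_le_one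
    (fun x => by rw [one_mul]; exact abs_phi_le hn hk x)

lemma integrable_phi0 (hn : 1 ≤ n) (hk : 2 ≤ k) (N : ℕ) :
    Integrable (fun x : En n => phi k (N + n + 1) x ^ 2) := by
  refine (integrable_phi hn hk N).mono' ?_ ?_
  · exact (phi_contDiff.continuous.pow 2).aestronglyMeasurable
  · refine Eventually.of_forall fun x => ?_
    rw [Real.norm_eq_abs, abs_of_nonneg (by positivity)]
    have h1 : 1 ≤ (rho x ^ 2) ^ N := one_le_pow₀ (by nlinarith [one_le_rho x])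
    nlinarith [sq_nonneg (phi k (N + n + 1) x)]

lemma integrable_grad0 (hn : 1 ≤ n) (hk : 2 ≤ k) (N : ℕ) :
    Integrable (fun x : En n => ‖fderiv ℝ (phi k (N + n + 1) : En n → ℝ) x‖ ^ 2) := by
  obtain ⟨C, hC0, hC⟩ := exists_grad_bound (n := n) (g := N + n + 1) hn hk
  have hc : Continuous (fun x : En n => ‖fderiv ℝ (phi k (N + n + 1) : En n → ℝ) x‖) :=
    (phi_contDiff.continuous_fderiv (by norm_num)).norm
  have h := integrable_of_bound (N := N) hc hC0 (fun x => by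
    rw [abs_of_nonneg (norm_nonneg _)]; exact hC x)
  refine h.mono' (hc.pow 2).aestronglyMeasurable (Eventually.of_forall fun x => ?_)
  rw [Real.norm_eq_abs, abs_of_nonneg (by positivity)]
  have h1 : 1 ≤ (rho x ^ 2) ^ N := one_le_pow₀ (by nlinarith [one_le_rho x])
  nlinarith [sq_nonneg ‖fderiv ℝ (phi k (N + n + 1) : En n → ℝ) x‖]

lemma sol_inH1 (hn : 1 ≤ n) (hk : 2 ≤ k) (N : ℕ) (c : ℂ) :
    InH1 (sol c k (N + n + 1) : En n → ℂ) := by
  refine ⟨(sol_contDiff c).of_le (by norm_num), ?_, ?_⟩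
  · have := (integrable_phi0 (n := n) hn hk N).const_mul (‖c‖ ^ 2)
    refine this.congr (Eventually.of_forall fun x => ?_)
    simp only
    rw [norm_sol, mul_pow, sq_abs]
  · refine ((integrable_grad0 (n := n) hn hk N).const_mul (‖c‖ ^ 2)).mono' ?_ ?_
    · exact (((sol_contDiff c).continuous_fderiv (by norm_num)).norm.pow 2).aestronglyMeasurable
    · refine Eventually.of_forall fun x => ?_
      rw [Real.norm_eq_abs, abs_of_nonneg (by positivity), ← mul_pow]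
      exact pow_le_pow_left₀ (norm_nonneg _) (norm_fderiv_sol c x) 2

lemma H1norm_sol (hn : 1 ≤ n) (hk : 2 ≤ k) (N : ℕ) : ∃ M : ℝ, ∀ c : ℂ,
    H1norm (sol c k (N + n + 1) : En n → ℂ) ≤ ‖c‖ * M := by
  have hi : Integrable (fun x : En n => phi k (N + n + 1) x ^ 2
      + ‖fderiv ℝ (phi k (N + n + 1) : En n → ℝ) x‖ ^ 2) :=
    (integrable_phi0 hn hk N).add (integrable_grad0 hn hk N)
  refine ⟨Real.sqrt (∫ x : En n, (phi k (N + n + 1) x ^ 2
      + ‖fderiv ℝ (phi k (N + n + 1) : En n → ℝ) x‖ ^ 2)), fun c => ?_⟩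
  have hs := sol_inH1 (n := n) hn hk N c
  have h1 : ∫ x, (‖sol c k (N + n + 1) x‖ ^ 2 + ‖fderiv ℝ (sol c k (N + n + 1) : En n → ℂ) x‖ ^ 2)
      ≤ ‖c‖ ^ 2 * ∫ x : En n, (phi k (N + n + 1) x ^ 2
      + ‖fderiv ℝ (phi k (N + n + 1) : En n → ℝ) x‖ ^ 2) := by
    rw [← integral_const_mul]
    refine integral_mono (hs.2.1.add hs.2.2) (hi.const_mul _) fun x => ?_
    simp only
    rw [mul_add]
    refine add_le_add ?_ ?_
    · rw [norm_sol, mul_pow, sq_abs]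
    · rw [← mul_pow]; exact pow_le_pow_left₀ (norm_nonneg _) (norm_fderiv_sol c x) 2
  unfold H1norm
  calc _ ≤ Real.sqrt (‖c‖ ^ 2 * ∫ x : En n, (phi k (N + n + 1) x ^ 2
      + ‖fderiv ℝ (phi k (N + n + 1) : En n → ℝ) x‖ ^ 2)) := Real.sqrt_le_sqrt h1
    _ = _ := by rw [Real.sqrt_mul (by positivity), Real.sqrt_sq (norm_nonneg _)]

/-- the standing wave -/
noncomputable def wave (k : ℝ) (g : ℕ) (t : ℝ) (x : En n) : ℂ :=
  sol (Complex.exp (-(Complex.I * ((k : ℂ) ^ 2) * t))) k g x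

lemma norm_phase (k t : ℝ) : ‖Complex.exp (-(Complex.I * ((k : ℂ) ^ 2) * t))‖ = 1 := by
  have : -(Complex.I * ((k : ℂ) ^ 2) * t) = ((-(k ^ 2 * t) : ℝ) : ℂ) * Complex.I := by
    push_cast; ring
  rw [this]
  exact Complex.norm_exp_ofReal_mul_I _

lemma wave_bounded (hn : 1 ≤ n) (hk : 2 ≤ k) (N : ℕ) :
    IsBoundedSolution (pot k (N + n + 1) : En n → ℝ) (wave k (N + n + 1)) := by
  obtain ⟨M, hM⟩ := H1norm_sol (n := n) hn hk N
  refine ⟨?_, ?_, fun t => sol_inH1 hn hk N _, fun t => ?_, M, fun t => ?_⟩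
  · unfold wave sol
    have h1 : ContDiff ℝ ∞ (fun p : ℝ × En n => Complex.exp (-(Complex.I * ((k : ℂ) ^ 2) * (p.1 : ℂ)))) := by
      have h0 : ContDiff ℝ ∞ (fun p : ℝ × En n => (p.1 : ℂ)) :=
        Complex.ofRealCLM.contDiff.comp contDiff_fst
      exact (contDiff_const.mul h0).neg.cexp
    have h2 : ContDiff ℝ ∞ (fun p : ℝ × En n => ((phi k (N + n + 1) p.2 : ℝ) : ℂ)) :=
      Complex.ofRealCLM.contDiff.comp (phi_contDiff.comp contDiff_snd)
    exact h1.mul h2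
  · intro t x
    have hd : deriv (fun s => wave k (N + n + 1) s x) t
        = -(Complex.I * (k : ℂ) ^ 2) * wave k (N + n + 1) t x := by
      have h0 : HasDerivAt (fun s : ℝ => -(Complex.I * ((k : ℂ) ^ 2) * (s : ℂ)))
          (-(Complex.I * (k : ℂ) ^ 2)) t := by
        have := (Complex.ofRealCLM.hasDerivAt (x := t)).const_mul (Complex.I * ((k : ℂ) ^ 2))
        exact this.neg.congr_deriv (by simp)
      have h1 := (h0.cexp).mul_const ((phi k (N + n + 1) x : ℝ) : ℂ)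
      unfold wave sol
      rw [h1.deriv]
      ring
    have hl : (Δ (wave k (N + n + 1) t)) x
        = Complex.exp (-(Complex.I * ((k : ℂ) ^ 2) * t)) *
          (((pot k (N + n + 1) x + phi k (N + n + 1) x ^ 2 - k ^ 2) * phi k (N + n + 1) x : ℝ) : ℂ) := by
      have e : wave k (N + n + 1) t = (L (Complex.exp (-(Complex.I * ((k : ℂ) ^ 2) * t)))) ∘
          (phi k (N + n + 1) : En n → ℝ) := sol_eq _
      rw [e, ContDiffAt.laplacian_CLM_comp_left
        ((phi_contDiff (n := n)).contDiffAt.of_le (WithTop.coe_le_coe.2 le_top)), Function.comp_apply,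
        laplacian_phi (by linarith), L_apply]
    rw [hd, hl]
    have hnorm : ‖wave k (N + n + 1) t x‖ ^ 2 = phi k (N + n + 1) x ^ 2 := by
      unfold wave; rw [norm_sol, norm_phase, one_mul, sq_abs]
    rw [hnorm]
    unfold wave sol
    push_cast
    linear_combination (-(k:ℂ) ^ 2 * Complex.exp (-(Complex.I * ((k : ℂ) ^ 2) * t)) *
      (phi k (N + n + 1) x : ℂ)) * Complex.I_mul_I
  · have h1 : ∀ s, H1norm (wave k (N + n + 1) s - wave k (N + n + 1) t : En n → ℂ)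
        ≤ ‖Complex.exp (-(Complex.I * ((k : ℂ) ^ 2) * s)) -
          Complex.exp (-(Complex.I * ((k : ℂ) ^ 2) * t))‖ * M := by
      intro s
      have : (wave k (N + n + 1) s - wave k (N + n + 1) t : En n → ℂ) =
          sol (Complex.exp (-(Complex.I * ((k : ℂ) ^ 2) * s)) -
          Complex.exp (-(Complex.I * ((k : ℂ) ^ 2) * t))) k (N + n + 1) := sol_sub _ _
      rw [this]; exact hM _
    have h2 : Tendsto (fun s : ℝ => ‖Complex.exp (-(Complex.I * ((k : ℂ) ^ 2) * s)) -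
          Complex.exp (-(Complex.I * ((k : ℂ) ^ 2) * t))‖ * M) (𝓝 t) (𝓝 0) := by
      have hc : Continuous (fun s : ℝ => ‖Complex.exp (-(Complex.I * ((k : ℂ) ^ 2) * s)) -
          Complex.exp (-(Complex.I * ((k : ℂ) ^ 2) * t))‖ * M) := by fun_prop
      have := hc.tendsto t
      simpa using this
    exact squeeze_zero (fun s => Real.sqrt_nonneg _) h1 h2
  · have := hM (Complex.exp (-(Complex.I * ((k : ℂ) ^ 2) * t)))
    rw [norm_phase, one_mul] at this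
    exact this

lemma wave_localized (hn : 1 ≤ n) (hk : 2 ≤ k) (N : ℕ) {δ : ℝ} (hδ : δ ≤ N) :
    IsLocalized δ (wave k (N + n + 1) : ℝ → En n → ℂ) := by
  refine ⟨⟨0, 0, ?_⟩, ∫ x : En n, (rho x ^ 2) ^ N * phi k (N + n + 1) x ^ 2, fun t _ => ?_⟩
  · have : ‖wave k (N + n + 1) 0 (0 : En n)‖ ≠ 0 := by
      unfold wave
      rw [norm_sol, norm_phase, one_mul]
      exact abs_ne_zero.2 phi_zero_ne
    exact norm_ne_zero_iff.1 this
  · have hi := integrable_phi (n := n) hn hk N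
    have hb : ∀ x : En n, ((1 + ‖x‖ ^ 2) ^ (1 / 2 : ℝ)) ^ (2 * δ) * ‖wave k (N + n + 1) t x‖ ^ 2
        ≤ (rho x ^ 2) ^ N * phi k (N + n + 1) x ^ 2 := by
      intro x
      have hw : ‖wave k (N + n + 1) t x‖ ^ 2 = phi k (N + n + 1) x ^ 2 := by
        unfold wave; rw [norm_sol, norm_phase, one_mul, sq_abs]
      rw [hw, rho_sq]
      apply mul_le_mul_of_nonneg_right _ (sq_nonneg _)
      have h1 : (1:ℝ) ≤ 1 + ‖x‖ ^ 2 := by nlinarith [sq_nonneg ‖x‖]
      calc ((1 + ‖x‖ ^ 2) ^ (1 / 2 : ℝ)) ^ (2 * δ) = (1 + ‖x‖ ^ 2) ^ δ := by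
            rw [← Real.rpow_mul (by positivity)]; congr 1; ring
        _ ≤ (1 + ‖x‖ ^ 2) ^ (N : ℝ) := Real.rpow_le_rpow_of_exponent_le h1 hδ
        _ = (1 + ‖x‖ ^ 2) ^ N := Real.rpow_natCast _ _
    have hc : Continuous (fun x : En n => ((1 + ‖x‖ ^ 2) ^ (1 / 2 : ℝ)) ^ (2 * δ)
        * ‖wave k (N + n + 1) t x‖ ^ 2) := by
      have hw : Continuous (fun x : En n => ‖wave k (N + n + 1) t x‖ ^ 2) := by
        unfold wave; exact ((sol_contDiff _).continuous.norm.pow 2)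
      refine Continuous.mul ?_ hw
      refine Continuous.rpow_const ?_ (fun x => Or.inl (by positivity))
      exact Continuous.rpow_const (by fun_prop) (fun x => Or.inl (by positivity))
    have hint : Integrable (fun x : En n => ((1 + ‖x‖ ^ 2) ^ (1 / 2 : ℝ)) ^ (2 * δ)
        * ‖wave k (N + n + 1) t x‖ ^ 2) := by
      refine hi.mono' hc.aestronglyMeasurable (Eventually.of_forall fun x => ?_)
      rw [Real.norm_eq_abs, abs_of_nonneg (by positivity)]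
      exact hb x
    exact ⟨hint, integral_mono hint hi hb⟩

end proof

/-- In every dimension `n ≥ 1` and for every `δ > 0` there are a smooth positive potential `V`,
all of whose derivatives are `O(⟨x⟩⁻¹)`, and a nonzero bounded solution of the defocusing cubic
equation with `sup_t ‖⟨x⟩^δ ψ(t)‖_{L²} < ∞`. -/
theorem result (n : ℕ) (hn : 1 ≤ n) (δ : ℝ) (_hδ : 0 < δ) :
    ∃ (V : EuclideanSpace ℝ (Fin n) → ℝ) (ψ : ℝ → EuclideanSpace ℝ (Fin n) → ℂ),
      ContDiff ℝ ∞ V ∧ (∀ x, 0 < V x) ∧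
      (∀ j : ℕ, ∃ C : ℝ, ∀ x, ‖iteratedFDeriv ℝ j V x‖ ≤ C / (1 + ‖x‖)) ∧
      IsBoundedSolution V ψ ∧ IsLocalized δ ψ := by
  obtain ⟨N, hN⟩ := exists_nat_ge δ
  obtain ⟨C, hC0, hC⟩ := H751R3.Nls.chi_deriv_bdd
  set g := N + n + 1 with hg
  set k : ℝ := max 4 (2 * H751R3.Nls.KK C g n) with hk
  have hk4 : 4 ≤ k := le_max_left _ _
  have hkK : 2 * H751R3.Nls.KK C g n ≤ k := le_max_right _ _
  exact ⟨H751R3.Nls.pot k g, wave k g, H751R3.Nls.pot_contDiff (by linarith),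
    H751R3.Nls.pot_pos hn (by omega) hk4 hC0 hC hkK,
    fun j => H751R3.Nls.pot_bounds hn (by omega) (by linarith) j, wave_bounded hn (by linarith) N,
    wave_localized hn (by linarith) N hN⟩

end Pool.Agent.Results.MP_0c4061_mp.LongRangeStandingWave
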